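import Pool.Agent.helper50.BS.SpecU

/-!
# Module UB5: products of coefficient lists
-/

set_option autoImplicit false
set_option linter.unusedVariables false
set_option linter.dupNamespace false

open scoped Classical

noncomputable section

namespace Pool.Agent.helper50.BT

open Pool.Agent.helper81.PL

lemma UB5_sum {α : Type} [AddCommMonoid α] (f : ℕ → α) (n : ℕ) :
    ((List.range n).map f).sum = ∑ i ∈ Finset.range n, f i := by
  induction n with
  | zero => simp
  | succ n ih => rw [List.range_succ, List.map_append, List.sum_append, ih,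
      Finset.sum_range_succ]; simp

theorem UB5 (h2 : UB2_stmt) : UB5_stmt := by
  intro M n k l T A B r r' hM hA hB
  obtain ⟨h1, h3, h4⟩ := h2 n k l (fun a c j => ((List.range (a + 1)).map (fun a1 =>
    ((List.range (c + 1)).map (fun c1 => ((List.range (j + 1)).map (fun j1 =>
      cfT k l A a1 c1 j1 * cfT k l B (a - a1) (c - c1) (j - j1))).sum)).sum)).sum % M)
    (mulT M n k l A B) rfl
  refine ⟨h1, ?_, ?_⟩
  · intro x hx
    obtain ⟨a, c, j, _, _, _, rfl⟩ := h4 x hx
    exact Nat.mod_lt _ (by omega)
  · intro a c j ha hc hj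
    rw [h3 a c j ha hc hj, T.cf_mul a c j r r' ha hc hj]
    simp only [UB5_sum]
    rw [ZMod.natCast_mod, Nat.cast_sum]
    refine Finset.sum_congr rfl fun a1 h5 => ?_
    rw [Nat.cast_sum]
    refine Finset.sum_congr rfl fun c1 h6 => ?_
    rw [Nat.cast_sum]
    refine Finset.sum_congr rfl fun j1 h7 => ?_
    rw [Finset.mem_range] at h5 h6 h7
    rw [Nat.cast_mul, hA.2.2 a1 c1 j1 (by omega) (by omega) (by omega),
      hB.2.2 (a - a1) (c - c1) (j - j1) (by omega) (by omega) (by omega)]

end Pool.Agent.helper50.BT

end
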