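import Pool.Agent.helper50.BS.SpecU

/-!
# Module UB7: inverses of coefficient lists
-/

set_option autoImplicit false
set_option linter.unusedVariables false
set_option linter.dupNamespace false

open scoped Classical

noncomputable section

namespace Pool.Agent.helper50.BT

open Pool.Agent.helper81.PL Clip

lemma UB7_fits {N M n k l : ℕ} {T : BS.TR M n k l} {L : List ℕ} {r : T.R}
    (h1 : (n + 1) * (k + 1) * (l + 1) ≤ N) (h2 : M ≤ N) (h : Rp T L r) : Fits N L := by
  obtain ⟨h3, h4, -⟩ := h
  simp only [fits_list, fits_nat]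
  exact ⟨by omega, fun x hx => by have := h4 x hx; omega⟩

theorem UB7 (h3 : UB3_stmt) (h4 : UB4_stmt) (h5 : UB5_stmt) (ht : BS.TR2_stmt) : UB7_stmt := by
  intro N M n k l T A r hM hN hMN hA hr
  have hit : ∀ i : ℕ, Rp T ((fun A' => addT M (oneT M n k l)
      (mulT M n k l (subT M (oneT M n k l) A) A'))^[i] (zeroT n k l))
      (∑ j ∈ Finset.range i, (1 - r) ^ j) := by
    intro i
    induction i with
    | zero => simpa using (h3 M n k l T hM).2.2
    | succ i ih =>
      rw [Function.iterate_succ_apply', geom_sum_succ, add_comm]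
      refine (h4 M n k l T _ _ _ _ hM (h3 M n k l T hM).2.1 ?_).1
      exact h5 M n k l T _ _ _ _ hM (h4 M n k l T _ _ _ _ hM (h3 M n k l T hM).2.1 hA).2 ih
  refine ⟨_, ht M n k l T r hr, ?_⟩
  unfold invT
  rw [citer_eq (fun i _ => UB7_fits hN hMN (hit i))]
  exact hit _

end Pool.Agent.helper50.BT

end
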